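import Pool.Agent.Run7.h520.BU.I

/-!
# MP_ba14eb_lc, piece FMP: finite models of the types
-/

set_option autoImplicit false

namespace Run7.h160.BU
open Run7.h520.BU

theorem ty_finite (n : ℕ) : ∀ j, Finite (Ty n j) := by
  intro j
  induction j with
  | zero => exact inferInstanceAs (Finite Prop)
  | succ j ih => exact inferInstanceAs (Finite (Set (Ty n j × Fin (n + 1))))

theorem F_pos {N : Type} (X : Fr N) {H i : ℕ} (h1 : 1 ≤ i) (h2 : i < H) (x y : N) :
    X.F H i x y ↔ X.E (i - 1) x y := by
  obtain ⟨i, rfl⟩ : ∃ i', i = i' + 1 := ⟨i - 1, by omega⟩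
  simp [Fr.F, h2]

theorem F_top {N : Type} (X : Fr N) {H : ℕ} (h1 : 1 ≤ H) (x y : N) :
    X.F H H x y ↔ x = y := by
  obtain ⟨i, rfl⟩ : ∃ i', H = i' + 1 := ⟨H - 1, by omega⟩
  simp [Fr.F]

/-- There are `k` classes of the type `τ`. -/
def Pk {N : Type} (X : Fr N) (n H j : ℕ) (x : N) (τ : Ty n j) (k : ℕ) : Prop :=
  ∃ y : Fin k → N, (∀ a, X.F H (H - (j + 1)) x (y a)) ∧
    (∀ a b, a ≠ b → ¬ X.F H (H - j) (y a) (y b)) ∧ ∀ a, X.ty n H j (y a) = τ

theorem Pk_mono {N : Type} (X : Fr N) {n H j : ℕ} {x : N} {τ : Ty n j} {k l : ℕ} (h : k ≤ l)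
    (hl : Pk X n H j x τ l) : Pk X n H j x τ k := by
  obtain ⟨y, h1, h2, h3⟩ := hl
  exact ⟨fun a => y (Fin.castLE h a), fun a => h1 _,
    fun a b hab => h2 _ _ fun h' => hab (Fin.castLE_injective h h'), fun a => h3 _⟩

/-- `δ` is a finite model of the class of level `H - j` of `x`. -/
def Md {N : Type} (X : Fr N) (n H j : ℕ) (x : N) (δ : Finset (List ℕ × Bool)) : Prop :=
  δ.Nonempty ∧ (j = 0 → ∀ p ∈ δ, ∀ q ∈ δ, p = q) ∧
    ∀ (r : ℕ) (Δ : Finset (List ℕ × Bool)) (u : List ℕ), u.length = H - 1 - j →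
      (∀ t b, (u ++ t, b) ∈ Δ ↔ (t, b) ∈ δ) → ∀ c : Pt0, c.1.1 = (r, Δ) →
      c.1.2.1.take (H - 1 - j) = u → X0.ty n H j c = X.ty n H j x

theorem md {N : Type} (X : Fr N) (hX : X.Ok) (n H : ℕ) (j : ℕ) (hj : j ≤ H - 1) (hH : 1 ≤ H)
    (x : N) : ∃ δ, Md X n H j x δ := by
  classical
  induction j generalizing x with
  | zero =>
    refine ⟨{([], decide (X.Q x))}, Finset.singleton_nonempty _, ?_, ?_⟩
    · intro _ p hp q hq
      rw [Finset.mem_singleton] at hp hq
      rw [hp, hq]
    · intro r Δ u hu h c hc hcu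
      have h1 : c.1.2 ∈ Δ := by
        have := c.2
        rw [hc] at this
        exact this
      have h2 : (u ++ c.1.2.1.drop (H - 1 - 0), c.1.2.2) ∈ Δ := by
        rw [← hcu, List.take_append_drop]
        exact h1
      rw [h, Finset.mem_singleton] at h2
      have h3 : c.1.2.2 = decide (X.Q x) := congrArg Prod.snd h2
      change (c.1.2.2 = true) = X.Q x
      rw [h3]
      simp
  | succ j ih =>
    have ih' := ih (by omega)
    have hfin := ty_finite n j
    have : Fintype (Ty n j) := Fintype.ofFinite _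
    obtain ⟨e, he⟩ : ∃ e : Ty n j × ℕ → ℕ, Function.Injective e := exists_injective_nat _
    obtain ⟨K, hK⟩ : ∃ K : Ty n j → ℕ, ∀ τ, (∀ k, k ≤ n + 1 → (Pk X n H j x τ k ↔ k ≤ K τ)) ∧
        Pk X n H j x τ (K τ) := by
      have : ∀ τ, ∃ K, (∀ k, k ≤ n + 1 → (Pk X n H j x τ k ↔ k ≤ K)) ∧ Pk X n H j x τ K := by
        intro τ
        have h0 : Pk X n H j x τ 0 := ⟨fun a => a.elim0, fun a => a.elim0, fun a => a.elim0,
          fun a => a.elim0⟩
        have h1 : Pk X n H j x τ (Nat.findGreatest (Pk X n H j x τ) (n + 1)) :=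
          Nat.findGreatest_spec (P := Pk X n H j x τ) (Nat.zero_le _) h0
        exact ⟨Nat.findGreatest (Pk X n H j x τ) (n + 1), fun k hk =>
          ⟨fun h => Nat.le_findGreatest hk h, fun h => Pk_mono X h h1⟩, h1⟩
      choose K hK using this
      exact ⟨K, hK⟩
    -- the models of the subclasses
    obtain ⟨D, hD⟩ : ∃ D : Ty n j → Finset (List ℕ × Bool), ∀ τ, 1 ≤ K τ →
        ∃ y, X.ty n H j y = τ ∧ Md X n H j y (D τ) := by
      have : ∀ τ, ∃ D, 1 ≤ K τ → ∃ y, X.ty n H j y = τ ∧ Md X n H j y D := by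
        intro τ
        by_cases h : 1 ≤ K τ
        · obtain ⟨y, -, -, h3⟩ := (hK τ).2
          obtain ⟨D, hD⟩ := ih' (y ⟨0, h⟩)
          exact ⟨D, fun _ => ⟨_, h3 _, hD⟩⟩
        · exact ⟨∅, fun h' => absurd h' h⟩
      choose D hD using this
      exact ⟨D, hD⟩
    obtain ⟨δ, hδ⟩ : ∃ δ : Finset (List ℕ × Bool), ∀ p, p ∈ δ ↔
        ∃ τ a t, a < K τ ∧ (t, p.2) ∈ D τ ∧ p.1 = e (τ, a) :: t := by
      refine ⟨Finset.univ.biUnion fun τ => (Finset.range (K τ)).biUnion fun a =>
        (D τ).image fun q => (e (τ, a) :: q.1, q.2), fun p => ?_⟩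
      simp only [Finset.mem_biUnion, Finset.mem_univ, true_and, Finset.mem_range, Finset.mem_image]
      constructor
      · rintro ⟨τ, a, ha, q, hq, rfl⟩
        exact ⟨τ, a, q.1, ha, hq, rfl⟩
      · rintro ⟨τ, a, t, ha, ht, hp⟩
        exact ⟨τ, a, ha, (t, p.2), ht, Prod.ext hp.symm rfl⟩
    refine ⟨δ, ?_, fun h => absurd h (Nat.succ_ne_zero j), ?_⟩
    · -- nonempty
      have h1 : 1 ≤ K (X.ty n H j x) := by
        refine ((hK _).1 1 (by omega)).1 ⟨fun _ => x, fun _ => ?_, fun a b hab => absurd (Subsingleton.elim a b) hab,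
          fun _ => rfl⟩
        rw [F_pos X (by omega) (by omega)]
        exact (hX.eqv _).refl x
      obtain ⟨y, -, ⟨q, hq⟩, -⟩ := hD _ h1
      exact ⟨(e (X.ty n H j x, 0) :: q.1, q.2), (hδ _).2 ⟨_, 0, q.1, h1, hq, rfl⟩⟩
    · intro r Δ u hu hΔ c hc hcu
      -- the elements of the class
      have hmemΔ : ∀ z : Pt0, z.1.1 = (r, Δ) → z.1.2 ∈ Δ := by
        intro z hz
        have := z.2
        rw [hz] at this
        exact this
      have hcls : ∀ z : Pt0, X0.F H (H - (j + 1)) c z ↔
          z.1.1 = (r, Δ) ∧ z.1.2.1.take (H - 1 - (j + 1)) = u := by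
        intro z
        rw [F_pos X0 (by omega) (by omega)]
        change E0 _ c z ↔ _
        rw [E0, hc, show H - (j + 1) - 1 = H - 1 - (j + 1) by omega, hcu]
        exact ⟨fun h => ⟨h.1.symm, h.2.symm⟩, fun h => ⟨h.1.symm, h.2.symm⟩⟩
      have hIH : ∀ (τ : Ty n j) (a : ℕ), a < K τ → ∀ z : Pt0, z.1.1 = (r, Δ) →
          z.1.2.1.take (H - 1 - j) = u ++ [e (τ, a)] → X0.ty n H j z = τ := by
        intro τ a ha z hz hzu
        obtain ⟨y, hy, hmd⟩ := hD τ (by omega)
        rw [← hy]
        refine hmd.2.2 r Δ (u ++ [e (τ, a)]) (by simp only [List.length_append, List.length_singleton]; omega)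
          (fun t b => ?_) z hz hzu
        rw [List.append_assoc, hΔ, hδ]
        constructor
        · rintro ⟨τ', a', t', ha', ht', h⟩
          simp only [List.cons_append, List.nil_append, List.cons.injEq] at h
          have h' := he h.1
          simp only [Prod.mk.injEq] at h'
          obtain ⟨rfl, rfl⟩ := h'
          rw [h.2]
          exact ht'
        · intro ht
          exact ⟨τ, a, t, ha, ht, rfl⟩
      change {p : Ty n j × Fin (n + 1) | Pk X0 n H j c p.1 p.2} =
        {p : Ty n j × Fin (n + 1) | Pk X n H j x p.1 p.2}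
      ext ⟨σ, k⟩
      simp only [Set.mem_ofPred_eq]
      rw [(hK σ).1 k (by omega)]
      constructor
      · rintro ⟨y, h1, h2, h3⟩
        have h4 : ∀ i, ∃ a t, a < K σ ∧ (t, (y i).1.2.2) ∈ D σ ∧
            (y i).1.2.1 = u ++ e (σ, a) :: t := by
          intro i
          obtain ⟨h5, h6⟩ := (hcls _).1 (h1 i)
          have h7 := hmemΔ _ h5
          have h8 : (u ++ (y i).1.2.1.drop (H - 1 - (j + 1)), (y i).1.2.2) ∈ Δ := by
            rw [← h6, List.take_append_drop]
            exact h7
          rw [hΔ, hδ] at h8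
          obtain ⟨τ, a, t, ha, ht, hp⟩ := h8
          have h9 : (y i).1.2.1 = u ++ e (τ, a) :: t := by
            rw [← hp]
            change _ = u ++ (y i).1.2.1.drop (H - 1 - (j + 1))
            rw [← h6, List.take_append_drop]
          have h10 := hIH τ a ha (y i) h5 (by
            rw [h9, show H - 1 - j = u.length + 1 by omega]
            simp [List.take_append])
          rw [h3] at h10
          subst h10
          exact ⟨a, t, ha, ht, h9⟩
        choose f t hf ht hy using h4
        have hinj : Function.Injective fun i => (⟨f i, hf i⟩ : Fin (K σ)) := by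
          intro i i' hii
          by_contra hne
          have hff : f i = f i' := congrArg Fin.val hii
          refine h2 i i' hne ?_
          have h5 := ((hcls _).1 (h1 i)).1
          have h6 := ((hcls _).1 (h1 i')).1
          by_cases hj0 : j = 0
          · have h7 : X0.F H (H - j) = X0.F H H := by rw [hj0]; rfl
            rw [h7, F_top X0 hH]
            obtain ⟨y', -, hmd⟩ := hD σ (by have := hf i; omega)
            have h8 := hmd.2.1 hj0 _ (ht i) _ (ht i')
            apply Subtype.ext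
            refine Prod.ext (h5.trans h6.symm) (Prod.ext ?_ (congrArg (fun q => q.2) h8 :))
            rw [hy, hy, hff, show t i = t i' from congrArg Prod.fst h8]
          · rw [F_pos X0 (by omega) (by omega)]
            refine ⟨h5.trans h6.symm, ?_⟩
            rw [hy, hy, hff, show H - j - 1 = u.length + 1 by omega]
            simp [List.take_append]
        have := Fintype.card_le_of_injective _ hinj
        simpa using this
      · intro hk
        by_cases hk0 : (k : ℕ) = 0
        · refine ⟨fun a => absurd a.2 (by omega), fun a => absurd a.2 (by omega),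
            fun a => absurd a.2 (by omega), fun a => absurd a.2 (by omega)⟩
        obtain ⟨y', -, ⟨q, hq⟩, -⟩ := hD σ (by omega)
        have hmem : ∀ a : Fin k, (u ++ e (σ, a) :: q.1, q.2) ∈ Δ := by
          intro a
          rw [hΔ, hδ]
          exact ⟨σ, a, q.1, by omega, hq, rfl⟩
        have htk : ∀ a : ℕ, (u ++ e (σ, a) :: q.1).take (H - 1 - j) = u ++ [e (σ, a)] := by
          intro a
          rw [show H - 1 - j = u.length + 1 by omega]
          simp [List.take_append]
        obtain ⟨z, hz⟩ : ∃ z : Fin k → Pt0, ∀ a, (z a).1 = ((r, Δ), (u ++ e (σ, a) :: q.1, q.2)) :=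
          ⟨fun a => ⟨((r, Δ), (u ++ e (σ, a) :: q.1, q.2)), hmem a⟩, fun _ => rfl⟩
        refine ⟨z, fun a => ?_, fun a b hab h => hab ?_, fun a => ?_⟩
        · rw [hcls, hz]
          refine ⟨rfl, ?_⟩
          change (u ++ e (σ, a) :: q.1).take (H - 1 - (j + 1)) = u
          rw [← hu]
          simp
        · have h5 : (u ++ e (σ, a) :: q.1).take (H - 1 - j) =
              (u ++ e (σ, b) :: q.1).take (H - 1 - j) := by
            by_cases hj0 : j = 0
            · have h7 : X0.F H (H - j) = X0.F H H := by rw [hj0]; rfl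
              rw [h7, F_top X0 hH] at h
              have h8 := congrArg (fun z : Pt0 => z.1.2.1) h
              simp only [hz] at h8
              exact congrArg _ h8
            · rw [F_pos X0 (by omega) (by omega)] at h
              have h8 : (z a).1.2.1.take (H - j - 1) = (z b).1.2.1.take (H - j - 1) := h.2
              rw [hz, hz, show H - j - 1 = H - 1 - j by omega] at h8
              exact h8
          rw [htk, htk] at h5
          have h6 := List.append_cancel_left h5
          simp only [List.cons.injEq, and_true] at h6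
          have h9 := he h6
          simp only [Prod.mk.injEq, true_and] at h9
          exact Fin.ext h9
        · exact hIH σ a (by omega) _ (by rw [hz]) (by rw [hz]; exact htk a)

theorem fmp : S_FMP := by
  intro N X hX n H hH x
  obtain ⟨δ, ⟨q, hq⟩, -, h⟩ := md X hX n H (H - 1) le_rfl hH x
  refine ⟨δ, fun r => ⟨⟨((r, δ), q), hq⟩, rfl, ?_⟩⟩
  refine h r δ [] (by simp) (fun t b => by simp) _ rfl ?_
  simp

end Run7.h160.BU
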